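import Pool.Agent.Helper95.MG.Tow
import Pool.Agent.Helper62.EC.Dim
import Pool.Agent.Helper62.EC.Fam
import Pool.Graph.R_pool_sql_team_seeded_2aa45f1a.Q282.UM.Main

/-!
# Étale motivic cohomology of schemes over a finite field in the weights `n ≤ 0`
-/

set_option autoImplicit false

open CategoryTheory AlgebraicGeometry Polynomial
open Pool.Agent.Y116.UV (Sch aff FT IsTriple ft_aff affIso of_affine' triple_away)
open Pool.Agent.Helper62.EC (Cls covS IsCover asS AS yf Spl unts)
open Pool.Agent.Helper95.MG (fg_mid fg_iso fg_of_injective fg_of_surjective fg_of_transfer)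

namespace Pool.Agent.Helper95.MF

/-- Data: `H n i X` is the group `H^i(X_et, ℤ^c(n))`, where `ℤ^c(n)` is Bloch's complex of cycles of
dimension `n` on the small étale site of the scheme `X` of finite type over the finite field `k`. For `X`
regular of pure dimension `d` it is `H^(i + 2 d)(X_et, ℤ(d - n))`. -/
structure Groups (k : Type) [Field k] where
  H : ℤ → ℤ → Sch k → Type
  [grp : ∀ n i X, AddCommGroup (H n i X)]

attribute [instance] Groups.grp

variable {k : Type} [Field k]

/-- The localisation sequence of the weight `n` for a closed subscheme `Z` of `X` and its complement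
`U`. -/
def Localization (T : Groups k) (n : ℤ) (Z X U : Sch k) : Prop :=
  ∃ (push : ∀ i, T.H n i Z →+ T.H n i X) (res : ∀ i, T.H n i X →+ T.H n i U)
    (bd : ∀ i, T.H n i U →+ T.H n (i + 1) Z), ∀ i,
      Function.Exact (push i) (res i) ∧ Function.Exact (res i) (bd i) ∧
        Function.Exact (bd i) (push (i + 1))

/-- The known facts which are used, in the weights `n ≤ 0`, for separated schemes of finite type over
the finite field `k`. `iso`: isomorphic schemes; `localization`: the localisation sequences; `line`: the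
affine line over `Spec A`; `sum`: disjoint unions; `point`: the groups of `Spec k` are finitely generated
in the degrees `≤ -2 n`; `high`: in the weights `n < 0` the groups of the degrees greater than `-2 n` are
finitely generated (they are zero). -/
structure Known (T : Groups k) : Prop where
  iso : ∀ {X Y : Sch k}, FT True X → Nonempty (X ≅ Y) → ∀ n ≤ 0, ∀ i,
    Nonempty (T.H n i X ≃+ T.H n i Y)
  localization : ∀ {Z X U : Sch k} (f : Z ⟶ X) (g : U ⟶ X), FT True X → IsTriple f g →
    ∀ n ≤ 0, Localization T n Z X U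
  line : ∀ (A : Type) [CommRing A] [Algebra k A] [Algebra.FiniteType k A], ∀ n ≤ 0, ∀ i,
    Nonempty (T.H n i (aff k A[X]) ≃+ T.H (n - 1) (i + 2) (aff k A))
  sum : ∀ (A B : Type) [CommRing A] [Algebra k A] [Algebra.FiniteType k A] [CommRing B]
    [Algebra k B] [Algebra.FiniteType k B], ∀ n ≤ 0, ∀ i,
    Nonempty (T.H n i (aff k (A × B)) ≃+ T.H n i (aff k A) × T.H n i (aff k B))
  point : ∀ n ≤ 0, ∀ i ≤ -2 * n, AddGroup.FG (T.H n i (aff k k))
  high : ∀ n < 0, ∀ i > -2 * n, ∀ X : Sch k, FT True X → AddGroup.FG (T.H n i X)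

/-- The groups of the weight `n ≤ 0` are finitely generated in the degrees at most `-2 n`. For `X`
regular of dimension `d` these are the groups `H^p(X_et, ℤ(m))`, `m = d - n`, `p ≤ 2 m`. -/
def FGen (T : Groups k) (n : ℤ) (X : Sch k) : Prop := ∀ i ≤ -2 * n, AddGroup.FG (T.H n i X)

variable {T : Groups k} (hT : Known T)

/-- the three parts of the localisation sequence -/
lemma Localization.closed {n : ℤ} {Z X U : Sch k} (h : Localization T n Z X U) (i : ℤ)
    (hU : AddGroup.FG (T.H n (i - 1) U)) (hX : AddGroup.FG (T.H n i X)) :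
    AddGroup.FG (T.H n i Z) := by
  obtain ⟨push, res, bd, h1⟩ := h
  have h2 := (h1 (i - 1)).2.2
  have h3 : ∀ k, k = i → Function.Exact (bd (i - 1)) (push (i - 1 + 1)) →
      AddGroup.FG (T.H n k X) → i - 1 + 1 = k → AddGroup.FG (T.H n k Z) := by
    intro k hk h4 h5 h6
    subst h6
    exact fg_mid _ _ h4 hU h5
  exact h3 i rfl h2 hX (by ring)

lemma Localization.total {n : ℤ} {Z X U : Sch k} (h : Localization T n Z X U) (i : ℤ)
    (hZ : AddGroup.FG (T.H n i Z)) (hU : AddGroup.FG (T.H n i U)) :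
    AddGroup.FG (T.H n i X) := by
  obtain ⟨push, res, bd, h1⟩ := h
  exact fg_mid _ _ (h1 i).1 hZ hU

lemma Localization.opened {n : ℤ} {Z X U : Sch k} (h : Localization T n Z X U) (i : ℤ)
    (hX : AddGroup.FG (T.H n i X)) (hZ : AddGroup.FG (T.H n (i + 1) Z)) :
    AddGroup.FG (T.H n i U) := by
  obtain ⟨push, res, bd, h1⟩ := h
  exact fg_mid _ _ (h1 i).2.1 hX hZ

include hT

lemma fgen_all {n : ℤ} (hn : n < 0) {X : Sch k} (hX : FT True X) (h : FGen T n X) (i : ℤ) :
    AddGroup.FG (T.H n i X) := by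
  rcases le_or_gt i (-2 * n) with hi | hi
  · exact h i hi
  · exact hT.high n hn i hi X hX

omit hT in
lemma ft_triple {Z X U : Sch k} (f : Z ⟶ X) (g : U ⟶ X) (hX : FT True X) (h : IsTriple f g) :
    FT True Z ∧ FT True U := by
  obtain ⟨h1, h2, h3⟩ := h
  obtain ⟨h4, h5, h6⟩ := hX
  have h7 : IsSeparated X.hom := h6 trivial
  have h8 : Z.hom = f.left ≫ X.hom := (Over.w f).symm
  have h9 : U.hom = g.left ≫ X.hom := (Over.w g).symm
  have h10 : IsNoetherian (Spec (CommRingCat.of k)) := inferInstance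
  have h11 : IsLocallyNoetherian X.left := LocallyOfFiniteType.isLocallyNoetherian X.hom
  have h12 : CompactSpace X.left := (quasiCompact_iff_compactSpace X.hom).mp h5
  have h13 : IsNoetherian X.left := {}
  refine ⟨⟨?_, ?_, fun _ => ?_⟩, ⟨?_, ?_, fun _ => ?_⟩⟩
  · rw [h8]; infer_instance
  · rw [h8]; infer_instance
  · rw [h8]; infer_instance
  · rw [h9]; infer_instance
  · rw [h9]
    have : QuasiCompact g.left := inferInstance
    infer_instance
  · rw [h9]; infer_instance

/-- In the weights `n < 0` finite generation is closed under decompositions. -/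
theorem cls {n : ℤ} (hn : n < 0) : Cls True (FGen T n) where
  iso := by
    intro X Y hX e h i hi
    obtain ⟨e'⟩ := hT.iso hX e n hn.le i
    exact fg_iso e' (h i hi)
  total := by
    intro Z X U f g hX ht hZ hU i hi
    exact (hT.localization f g hX ht n hn.le).total i (hZ i hi) (hU i hi)
  opened := by
    intro Z X U f g hX ht hZ hX' i hi
    exact (hT.localization f g hX ht n hn.le).opened i (hX' i hi)
      (fgen_all hT hn (ft_triple f g hX ht).1 hZ _)
  closed := by
    intro Z X U f g hX ht hX' hU i hi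
    exact (hT.localization f g hX ht n hn.le).closed i (hU _ (by omega)) (hX' i hi)

lemma fg_alg {n : ℤ} (hn : n ≤ 0) {A B : Type} [CommRing A] [CommRing B] [Algebra k A]
    [Algebra k B] [Algebra.FiniteType k A] (e : A ≃ₐ[k] B) (i : ℤ)
    (h : AddGroup.FG (T.H n i (aff k A))) : AddGroup.FG (T.H n i (aff k B)) := by
  obtain ⟨e'⟩ := hT.iso (ft_aff True) ⟨(affIso e).symm⟩ n hn i
  exact fg_iso e' h

lemma fgen_iso {n : ℤ} (hn : n ≤ 0) {A B : Type} [CommRing A] [CommRing B] [Algebra k A]
    [Algebra k B] [Algebra.FiniteType k A] (e : A ≃ₐ[k] B) (h : FGen T n (aff k A)) :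
    FGen T n (aff k B) := fun i hi => fg_alg hT hn e i (h i hi)

/-- The affine line. -/
lemma fgen_line {n : ℤ} (hn : n ≤ 0) (A : Type) [CommRing A] [Algebra k A]
    [Algebra.FiniteType k A] : FGen T n (aff k A[X]) ↔ FGen T (n - 1) (aff k A) := by
  constructor
  · intro h i hi
    obtain ⟨e⟩ := hT.line A n hn (i - 2)
    have h1 := fg_iso e (h (i - 2) (by omega))
    rwa [sub_add_cancel] at h1
  · intro h i hi
    obtain ⟨e⟩ := hT.line A n hn i
    exact fg_iso e.symm (h (i + 2) (by omega))

/-- Affine spaces. -/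
lemma space (N : ℕ) : ∀ n ≤ 0, FGen T n (aff k (MvPolynomial (Fin N) k)) := by
  induction N with
  | zero =>
    intro n hn
    exact fgen_iso hT hn (MvPolynomial.isEmptyAlgEquiv k (Fin 0)).symm (hT.point n hn)
  | succ N ih =>
    intro n hn
    exact fgen_iso hT hn (MvPolynomial.finSuccEquiv k N).symm
      ((fgen_line hT hn _).2 (ih (n - 1) (by omega)))

lemma space_line (N : ℕ) {n : ℤ} (hn : n ≤ 0) :
    FGen T n (aff k (MvPolynomial (Fin N) k)[X]) :=
  (fgen_line hT hn _).2 (space hT N _ (by omega))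

/-- From the weight `n < 0` to the weight `n - 1`. -/
lemma all_down {n : ℤ} (hn : n < 0) (h : ∀ X : Sch k, FT True X → FGen T n X) (X : Sch k)
    (hX : FT True X) : FGen T (n - 1) X := by
  have hP := cls hT (n := n - 1) (by omega)
  refine of_affine' (P := FGen T (n - 1)) (sep := True) hP.iso hP.total ?_ X hX
  intro A _ _ hA
  have h1 : Algebra.FiniteType k A[X] := Algebra.FiniteType.trans (S := A) inferInstance
    inferInstance
  exact (fgen_line hT hn.le A).1 (h _ (ft_aff True))

lemma all_neg (h : ∀ X : Sch k, FT True X → FGen T (-1) X) (n : ℤ) (hn : n < 0) (X : Sch k)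
    (hX : FT True X) : FGen T n X := by
  have key : ∀ m : ℕ, ∀ X : Sch k, FT True X → FGen T (-1 - m) X := by
    intro m
    induction m with
    | zero =>
      intro X hX
      rw [Nat.cast_zero, sub_zero]
      exact h X hX
    | succ m ih =>
      intro X hX
      have h1 := all_down hT (n := -1 - m) (by omega) ih X hX
      have e1 : -1 - ((m + 1 : ℕ) : ℤ) = -1 - m - 1 := by push_cast; ring
      rwa [e1]
  obtain ⟨m, rfl⟩ : ∃ m : ℕ, n = -1 - m := ⟨(-1 - n).toNat, by omega⟩
  exact key m X hX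

section covers

/-- The union with the empty scheme. -/
lemma fg_unit {n : ℤ} (hn : n ≤ 0) (G Z : Type) [CommRing G] [Algebra k G] [Algebra.FiniteType k G]
    [CommRing Z] [Algebra k Z] [Algebra.FiniteType k Z] [Subsingleton Z] (i : ℤ) :
    AddGroup.FG (T.H n i (aff k (G × Z))) ↔ AddGroup.FG (T.H n i (aff k G)) := by
  let e : (G × Z) ≃ₐ[k] G := AlgEquiv.ofBijective (AlgHom.fst k G Z)
    ⟨fun a b h => Prod.ext h (Subsingleton.elim _ _), Prod.fst_surjective⟩
  have : Algebra.FiniteType k (G × Z) :=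
    Algebra.FiniteType.equiv (inferInstance : Algebra.FiniteType k G) e.symm
  exact ⟨fg_alg hT hn e i, fg_alg hT hn e.symm i⟩

/-- The union of two schemes. -/
lemma fg_sum {n : ℤ} (hn : n ≤ 0) (A B : Type) [CommRing A] [Algebra k A] [Algebra.FiniteType k A]
    [CommRing B] [Algebra k B] [Algebra.FiniteType k B] (i : ℤ) :
    AddGroup.FG (T.H n i (aff k (A × B))) ↔
      AddGroup.FG (T.H n i (aff k A)) ∧ AddGroup.FG (T.H n i (aff k B)) := by
  obtain ⟨e⟩ := hT.sum A B n hn i
  constructor
  · intro h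
    have h1 := fg_iso e h
    exact ⟨fg_of_surjective (AddMonoidHom.fst _ _) Prod.fst_surjective h1,
      fg_of_surjective (AddMonoidHom.snd _ _) Prod.snd_surjective h1⟩
  · rintro ⟨h1, h2⟩
    refine fg_iso e.symm ?_
    rw [← Module.Finite.iff_addGroup_fg] at h1 h2 ⊢
    infer_instance

/-- Disjoint unions of copies of `Spec G`. -/
lemma fg_spl {n : ℤ} (hn : n ≤ 0) (G : Type) [CommRing G] [Algebra k G] [Algebra.FiniteType k G]
    (s : Finset k) (hs : s.Nonempty) (i : ℤ) :
    AddGroup.FG (T.H n i (aff k (Spl G s))) ↔ AddGroup.FG (T.H n i (aff k G)) := by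
  classical
  induction s using Finset.induction_on with
  | empty => exact absurd hs Finset.not_nonempty_empty
  | insert a s ha ih =>
    obtain ⟨e⟩ := Pool.Agent.Helper62.EC.spl_insert G s a ha
    have h1 := Pool.Agent.Helper62.EC.ft_spl (k := k) (G := G) s
    have h2 := Pool.Agent.Helper62.EC.ft_spl (k := k) (G := G) (insert a s)
    have h3 : Algebra.FiniteType k (G × Spl G s) := Algebra.FiniteType.equiv h2 e
    have h4 : AddGroup.FG (T.H n i (aff k (Spl G (insert a s)))) ↔
        AddGroup.FG (T.H n i (aff k (G × Spl G s))) :=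
      ⟨fg_alg hT hn e i, fg_alg hT hn e.symm i⟩
    rw [h4]
    rcases s.eq_empty_or_nonempty with rfl | hs'
    · have h5 : Subsingleton (Spl G (∅ : Finset k)) := by
        change Subsingleton (G[X] ⧸ Ideal.span {∏ a ∈ (∅ : Finset k), (X - C (algebraMap k G a))})
        rw [Finset.prod_empty, Ideal.span_singleton_one]
        exact Ideal.Quotient.subsingleton_iff.mpr rfl
      exact fg_unit hT hn G _ i
    · rw [fg_sum hT hn, ih hs', and_self]

variable (p : ℕ) [Fact p.Prime] [CharP k p]

/-- The Artin–Schreier cover `t ^ p - t = y f`. -/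
theorem as_iff {n : ℤ} (hn : n ≤ 0) {D : Type} [CommRing D] [Algebra k D] [Algebra.FiniteType k D]
    (f : D) (hD : FGen T n (aff k D[X])) : FGen T n (aff k (AS p (yf f))) ↔
      FGen T n (aff k (D ⧸ Ideal.span {f})[X]) := by
  have hp : 2 ≤ p := (Fact.out : p.Prime).two_le
  have ht := Pool.Agent.Helper62.EC.triple_two (R := k)
    (φ := (Pool.Agent.Helper62.EC.chart p f hp).restrictScalars k)
    (s₁ := Pool.Agent.Helper62.EC.s₁ p f) (s₂ := Pool.Agent.Helper62.EC.s₂ p f)
    (Pool.Agent.Helper62.EC.chart_unit p f hp) (Pool.Agent.Helper62.EC.loc₁ p f hp)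
    (Pool.Agent.Helper62.EC.loc₂ p f hp)
    (Ideal.Quotient.mkₐ k (Ideal.span {Pool.Agent.Helper62.EC.s₁ p f,
      Pool.Agent.Helper62.EC.s₂ p f})) (Ideal.Quotient.mkₐ_surjective _ _)
    (Ideal.Quotient.mkₐ_ker k _)
  have hpoly : (X ^ (p - 1) - 1 : (Pool.Agent.Helper62.EC.Gf f)[X]) =
      ∏ a ∈ unts k p, (X - C (algebraMap k (Pool.Agent.Helper62.EC.Gf f) a)) := by
    have h1 := congrArg (Polynomial.map (algebraMap k (Pool.Agent.Helper62.EC.Gf f)))
      (Pool.Agent.Helper62.EC.prod_unts k p)
    rw [Polynomial.map_sub, Polynomial.map_pow, Polynomial.map_one, map_X,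
      Polynomial.map_prod] at h1
    rw [h1]
    refine Finset.prod_congr rfl fun a _ => ?_
    rw [Polynomial.map_sub, map_X, map_C]
  have hE : Nonempty ((AS p (yf f) ⧸ Ideal.span {Pool.Agent.Helper62.EC.s₁ p f,
      Pool.Agent.Helper62.EC.s₂ p f}) ≃ₐ[k] Spl (Pool.Agent.Helper62.EC.Gf f) (unts k p)) := by
    obtain ⟨e⟩ := Pool.Agent.Helper62.EC.adjoin_congr (k := k) hpoly
    exact ⟨((Pool.Agent.Helper62.EC.cloE p f hp).restrictScalars k).trans e⟩
  obtain ⟨e⟩ := hE
  have hft : Algebra.FiniteType k (Pool.Agent.Helper62.EC.Gf f) := inferInstance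
  have := Pool.Agent.Helper62.EC.ft_spl (k := k) (G := Pool.Agent.Helper62.EC.Gf f) (unts k p)
  constructor
  · intro h i hi
    have h2 := (hT.localization _ _ (ft_aff True) ht n hn).closed i (hD _ (by omega)) (h i hi)
    exact (fg_spl hT hn _ (unts k p) (Pool.Agent.Helper62.EC.unts_nonempty k p) i).1
      (fg_alg hT hn e i h2)
  · intro h i hi
    have h2 := fg_alg hT hn e.symm i
      ((fg_spl hT hn _ (unts k p) (Pool.Agent.Helper62.EC.unts_nonempty k p) i).2 (h i hi))
    exact (hT.localization _ _ (ft_aff True) ht n hn).total i h2 (hD i hi)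

end covers

end Pool.Agent.Helper95.MF
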