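import Pool.Agent.Helper95.MF.Defs

/-!
# Blow-ups of projective spaces over a finite field; finite étale covers of affine spaces
-/

set_option autoImplicit false

open CategoryTheory AlgebraicGeometry Polynomial
open Pool.Agent.Y116.UV (Sch aff FT IsTriple ft_aff affIso of_affine' triple_away)
open Pool.Agent.Helper62.EC (Cls covS IsCover asS AS yf as_e)
open Pool.Agent.Helper95.MG (fg_iso fg_of_surjective fg_of_transfer IsBlowUp)
open Pool.Agent.Q282.UM (projSpace)

namespace Pool.Agent.Helper95.MF

variable {k : Type} [Field k]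

/-- `Z` is a regular connected projective scheme over `k`. -/
structure Nice (Z : Sch k) : Prop where
  regular : Q54.CU.IsRegularSch Z.left
  connected : ConnectedSpace Z.left
  proper : IsProper Z.hom
  projective : ∃ (N : ℕ) (i : Z ⟶ projSpace k N), IsClosedImmersion i.left

/-- `Z` is a closed subscheme of `B`, regular and connected, of codimension `c ≥ 1` in the scheme `B` of
dimension `N`, and `b : B' ⟶ B` is the blow-up of `B` along `Z`. -/
structure IsStep (N c : ℕ) {B' B Z : Sch k} (b : B' ⟶ B) (i : Z ⟶ B) : Prop where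
  closed : IsClosedImmersion i.left
  nice : Nice Z
  dim : topologicalKrullDim Z.left + c = N
  pos : 0 < c
  blowUp : IsBlowUp b.left i.left

/-- Towers of blow-ups of the projective space of dimension `N` over `k` along regular connected closed
subschemes. -/
inductive IsTower (N : ℕ) : Sch k → Prop
  | space : IsTower N (projSpace k N)
  | blowUp {B' B Z : Sch k} {c : ℕ} (b : B' ⟶ B) (i : Z ⟶ B) : IsTower N B → IsStep N c b i →
      IsTower N B'

/-- `f` is a finite surjective morphism between regular connected schemes. -/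
structure IsCovering {V U : Sch k} (f : V ⟶ U) : Prop where
  finite : IsFinite f.left
  surjective : Function.Surjective f.left
  regular : Q54.CU.IsRegularSch V.left ∧ Q54.CU.IsRegularSch U.left
  connected : ConnectedSpace V.left ∧ ConnectedSpace U.left

/-- Known facts on blow-ups, coverings and alterations over the finite field `k`. `space`: projective
spaces; `blowUp`: the blow-up formula in the weight zero; `embed`: projective schemes can be embedded in
projective spaces of large dimension, and blow-ups exist; `covering`: for a finite morphism `f` of degree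
`m` of regular schemes `f_* f^* = m`; `torsion`: in the weights `n < 0` the groups have finite
`m`-torsion; `alteration`: the theorem of de Jong, for an integral affine scheme `Spec D`: a nonempty
open subscheme `Spec D_w` has a covering `V` which is an open subscheme of a regular connected
projective scheme `Y`, and the complement `S` of `V` in `Y` has smaller dimension than `Spec D`. -/
structure KnownGeometry (T : Groups k) : Prop where
  space : ∀ N : ℕ, ∀ j ≤ 0, AddGroup.FG (T.H 0 j (projSpace k N))
  blowUp : ∀ {N c : ℕ} {B' B Z : Sch k} (b : B' ⟶ B) (i : Z ⟶ B), IsTower N B → IsStep N c b i →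
    ∀ j, Nonempty (T.H 0 j B' ≃+ T.H 0 j B × ∀ l : Fin (c - 1), T.H (-(l + 1)) (j + 2 * (l + 1)) Z)
  embed : ∀ Z : Sch k, Nice Z → ∀ e : ℕ, ∃ (N c : ℕ) (B' : Sch k) (b : B' ⟶ projSpace k N)
    (i : Z ⟶ projSpace k N), IsStep N c b i ∧ e ≤ N ∧ e < c
  covering : ∀ {V U : Sch k} (f : V ⟶ U), FT True U → IsCovering f → ∃ m : ℕ, 0 < m ∧
    ∀ n < 0, ∀ i, ∃ (u : T.H n i U →+ T.H n i V) (v : T.H n i V →+ T.H n i U), ∀ x, v (u x) = m • x
  torsion : ∀ n < 0, ∀ (i : ℤ) (X : Sch k), FT True X → ∀ m : ℕ, 0 < m →
    {x : T.H n i X | m • x = 0}.Finite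
  alteration : ∀ (D : Type) [CommRing D] [IsDomain D] [Algebra k D] [Algebra.FiniteType k D],
    ∃ (w : D) (Y S V : Sch k) (i : S ⟶ Y) (j : V ⟶ Y) (f : V ⟶ aff k (Localization.Away w)),
      w ≠ 0 ∧ Nice Y ∧ IsTriple i j ∧ IsCovering f ∧
      topologicalKrullDim S.left < topologicalKrullDim (aff k D).left

variable {T : Groups k} (hT : Known T) (hG : KnownGeometry T)

lemma ft_nice {Y : Sch k} (h : Nice Y) : FT True Y := by
  have h1 := h.proper
  exact ⟨inferInstance, inferInstance, fun _ => inferInstance⟩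

include hG in
lemma tower_of_neg (h : ∀ n < 0, ∀ X : Sch k, FT True X → ∀ i, AddGroup.FG (T.H n i X)) {N : ℕ}
    {B : Sch k} (hB : IsTower N B) : ∀ j ≤ 0, AddGroup.FG (T.H 0 j B) := by
  induction hB with
  | space => exact hG.space N
  | @blowUp B' B Z c b i hB hs ih =>
    intro j hj
    obtain ⟨f⟩ := hG.blowUp b i hB hs j
    have h1 := ih j hj
    have h2 : ∀ l : Fin (c - 1), AddGroup.FG (T.H (-(l + 1)) (j + 2 * (l + 1)) Z) := fun l =>
      h _ (by omega) Z (ft_nice hs.nice) _
    have h3 : AddGroup.FG (T.H 0 j B × ∀ l : Fin (c - 1), T.H (-(l + 1)) (j + 2 * (l + 1)) Z) := by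
      rw [← Module.Finite.iff_addGroup_fg] at h1 ⊢
      have : ∀ l : Fin (c - 1), Module.Finite ℤ (T.H (-(l + 1)) (j + 2 * (l + 1)) Z) := fun l => by
        rw [Module.Finite.iff_addGroup_fg]
        exact h2 l
      infer_instance
    exact fg_iso f.symm h3

include hT hG

/-- From the weight `0` for towers to the weights `n < 0` for regular projective schemes. -/
lemma nice_of_tower
    (h : ∀ (N : ℕ) (B : Sch k), IsTower N B → ∀ j ≤ 0, -2 * (N : ℤ) ≤ j →
      AddGroup.FG (T.H 0 j B)) (n : ℤ) (hn : n < 0) (Y : Sch k) (hY : Nice Y) (i : ℤ) :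
    AddGroup.FG (T.H n i Y) := by
  rcases le_or_gt i (-2 * n) with hi | hi
  · obtain ⟨j, rfl⟩ : ∃ j : ℕ, n = -((j : ℤ) + 1) := ⟨(-n - 1).toNat, by omega⟩
    obtain ⟨N, c, B', b, ι, hs, hN, hc⟩ := hG.embed Y hY (j + 1 + (2 * ((j : ℤ) + 1) - i).toNat)
    obtain ⟨f⟩ := hG.blowUp b ι .space hs (i - 2 * (j + 1))
    have hfg := h N B' (.blowUp b ι .space hs) (i - 2 * (j + 1)) (by omega) (by omega)
    have h2 := fg_of_surjective
      ((Pi.evalAddMonoidHom (fun l : Fin (c - 1) => T.H (-(l + 1)) (i - 2 * (j + 1) + 2 * (l + 1)) Y)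
        ⟨j, by omega⟩).comp ((AddMonoidHom.snd _ _).comp f.toAddMonoidHom)) (fun y => by
          refine ⟨f.symm (0, Pi.single ⟨j, by omega⟩ y), ?_⟩
          simp) hfg
    have h3 : AddGroup.FG (T.H (-((j : ℤ) + 1)) (i - 2 * (j + 1) + 2 * (j + 1)) Y) := h2
    rwa [sub_add_cancel] at h3
  · exact hT.high n hn i hi Y (ft_nice hY)

/-- From regular projective schemes to all affine schemes, by induction on the dimension. -/
lemma affine_of_nice (n : ℤ) (hn : n < 0) (h : ∀ Y : Sch k, Nice Y → ∀ i, AddGroup.FG (T.H n i Y))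
    (e : ℕ) : ∀ (A : Type) [CommRing A] [Algebra k A] [Algebra.FiniteType k A],
      ringKrullDim A < e → FGen T n (aff k A) := by
  have hP := cls hT hn
  have hZ : FGen T n (aff k k) := hT.point n hn.le
  induction e with
  | zero =>
    intro A _ _ _ hA
    refine Pool.Agent.Helper62.EC.p_empty hP hZ A ?_
    by_contra hcon
    rw [not_subsingleton_iff_nontrivial] at hcon
    exact absurd (ringKrullDim_nonneg_of_nontrivial (R := A)) (not_le.2 (by simpa using hA))
  | succ e ih =>
    intro A _ _ _ hA
    refine Pool.Agent.Helper62.EC.noeth hP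
      (fun B _ _ hB => Pool.Agent.Helper62.EC.p_empty hP hZ B hB) fun q hq => ?_
    obtain ⟨w, Y, S, V, i, j, f, hw, hY, ht, hf, hS⟩ := hG.alteration (A ⧸ q)
    refine ⟨w, hw, ?_⟩
    have hYft := ft_nice hY
    have hft := ft_triple i j hYft ht
    have h1 : topologicalKrullDim (aff k (A ⧸ q)).left < ((e + 1 : ℕ) : WithBot ℕ∞) := by
      refine lt_of_le_of_lt ?_ hA
      rw [Pool.Agent.Z125.UN.topDim_aff]
      exact ringKrullDim_quotient_le q
    have h3 : topologicalKrullDim S.left < (e : WithBot ℕ∞) := by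
      have h4 : topologicalKrullDim (aff k (A ⧸ q)).left ≤ (e : WithBot ℕ∞) := by
        rw [Nat.cast_succ] at h1
        exact (ENat.WithBot.lt_add_one_iff).1 h1
      exact lt_of_lt_of_le hS h4
    have h5 : FGen T n S := by
      cases e with
      | zero =>
        -- the scheme `S` is empty
        refine of_affine' (P := fun X => topologicalKrullDim X.left < ((0 : ℕ) : WithBot ℕ∞) →
          FGen T n X) (sep := True) ?_ ?_ ?_ S hft.1 h3
        · intro X Y hX e' hPX hY
          refine hP.iso hX e' (hPX ?_)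
          obtain ⟨e'⟩ := e'
          have : IsIso e'.hom.left := inferInstanceAs (IsIso ((Over.forget _).map e'.hom))
          exact lt_of_le_of_lt e'.hom.left.isOpenEmbedding.isInducing.topologicalKrullDim_le hY
        · intro Z X U i j hX ht hZ hU hd
          refine hP.total i j hX ht (hZ ?_) (hU ?_)
          · have := ht.closed
            exact lt_of_le_of_lt i.left.isClosedEmbedding.isInducing.topologicalKrullDim_le hd
          · have := ht.opened
            exact lt_of_le_of_lt j.left.isOpenEmbedding.isInducing.topologicalKrullDim_le hd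
        · intro B _ _ _ hB
          rw [Pool.Agent.Z125.UN.topDim_aff] at hB
          exact ih B hB
      | succ e =>
        refine Pool.Agent.Helper62.EC.of_affine_dim hP (n := e) (fun B _ _ _ hB => ih B ?_) S hft.1 ?_
        · rw [Nat.cast_succ]
          exact (ENat.WithBot.lt_add_one_iff).2 hB
        · rw [Nat.cast_succ] at h3
          exact (ENat.WithBot.lt_add_one_iff).1 h3
    have h6 : ∀ i, AddGroup.FG (T.H n i V) := fun l =>
      (hT.localization i j hYft ht n hn.le).opened l (h Y hY l) (fgen_all hT hn hft.1 h5 _)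
    have h7 : Algebra.FiniteType k (Localization.Away w) :=
      Algebra.FiniteType.trans (S := A ⧸ q) inferInstance inferInstance
    obtain ⟨m, hm, h8⟩ := hG.covering f (ft_aff True) hf
    intro l _
    obtain ⟨u, v, huv⟩ := h8 n hn l
    exact fg_of_transfer u v huv (hG.torsion n hn l _ (ft_aff True) m hm) (h6 l)

/-- From regular projective schemes to all schemes. -/
lemma all_of_nice (n : ℤ) (hn : n < 0) (h : ∀ Y : Sch k, Nice Y → ∀ i, AddGroup.FG (T.H n i Y)) :
    ∀ X : Sch k, FT True X → FGen T n X := by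
  have hP := cls hT hn
  intro X hX
  refine of_affine' (P := FGen T n) (sep := True) hP.iso hP.total ?_ X hX
  intro A _ _ hA
  obtain ⟨N, f, hf⟩ := Algebra.FiniteType.iff_quotient_mvPolynomial''.1 hA
  refine affine_of_nice hT hG n hn h (N + 1) A ?_
  have h1 : ringKrullDim A ≤ ringKrullDim (MvPolynomial (Fin N) k) :=
    ringKrullDim_le_of_surjective f.toRingHom hf
  rw [MvPolynomial.ringKrullDim_of_isNoetherianRing, ringKrullDim_eq_zero_of_field, zero_add,
    Nat.card_eq_fintype_card, Fintype.card_fin] at h1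
  rw [Nat.cast_succ]
  exact (ENat.WithBot.lt_add_one_iff).2 h1

omit hG in
/-- All hypersurfaces in the affine space of dimension `d + 1`. -/
theorem dim_iff [PerfectField k] {n : ℤ} (hn : n < 0) (d : ℕ) :
    (∀ X : Sch k, FT True X → topologicalKrullDim X.left ≤ d → FGen T n X) ↔
      ∀ f : MvPolynomial (Fin (d + 1)) k,
        FGen T n (aff k (MvPolynomial (Fin (d + 1)) k ⧸ Ideal.span {f})) := by
  have hP := cls hT hn
  constructor
  · intro h f
    by_cases hf : f = 0
    · subst hf
      have h3 : Ideal.span {(0 : MvPolynomial (Fin (d + 1)) k)} = ⊥ :=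
        Ideal.span_singleton_eq_bot.2 rfl
      rw [h3]
      exact Pool.Agent.Helper62.EC.iso_alg hP (AlgEquiv.quotientBot k _).symm
        (space hT (d + 1) n hn.le)
    · refine h _ (ft_aff True) ?_
      rw [Pool.Agent.Z125.UN.topDim_aff]
      exact Pool.Agent.Z125.UN.dim_quot _ (by rwa [Ne, Ideal.span_singleton_eq_bot])
  · intro h
    have h2 : ∀ I : Ideal (MvPolynomial (Fin (d + 1)) k),
        FGen T n (aff k (MvPolynomial (Fin (d + 1)) k ⧸ I)) := fun I =>
      Pool.Agent.Helper67.SO.of_hyp hP (fun F => h F) I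
    refine Pool.Agent.Helper62.EC.of_affine_dim hP fun A _ _ _ hA => ?_
    refine Pool.Agent.Helper62.EC.noeth hP
      (fun B _ _ hB => Pool.Agent.Helper62.EC.p_empty hP (h2 ⊥) B hB) fun q hq => ?_
    have hd : ringKrullDim (A ⧸ q) ≤ d := (ringKrullDim_quotient_le q).trans hA
    obtain ⟨x, hx⟩ := Pool.Agent.Z125.UN.exists_gens k (A ⧸ q) d hd
    obtain ⟨w, hw, φ, g, h1, h2'⟩ := Pool.Agent.Z125.UN.exists_emb x hx
    exact ⟨w, hw, Pool.Agent.Helper67.SO.c_emb hP h2 φ g h1 h2'⟩

end Pool.Agent.Helper95.MF
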